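import Pool.Agent.Work.MP_df9865_an.Final

open Set Filter Topology

namespace Pool.Agent.Results.MP_df9865_an.BlockEntropy

open Pool.Agent.Work.MP_df9865_an

/-- Let `x` be irrational with `T(x)` rational and let the level set of `T(x)` be countable (or
only let the digit walk of `x` tend to infinity in absolute value). If `P` blocks of length `n` occur
infinitely often in `x` and `P ^ 2 < 2 ^ (s n)` (or `s = 2`), then the walk is at most `K` in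
absolute value at `O(K ^ s)` times only; and `P` is at least `2 ^ (n / 2)`. -/
theorem result (x : ℝ) (hx : x ∈ Set.Icc (0 : ℝ) 1) (hirr : Irrational x)
    (hT : ∃ y : ℚ, takagi x = y)
    (hL : (levelSet (takagi x)).Countable ∨ Tendsto (fun n => |walk x n|) atTop atTop)
    (n : ℕ) (hn : 0 < n) :
    2 ^ n ≤ (recurring x n).ncard ^ 2 ∧
    ∀ s : ℝ, (((recurring x n).ncard : ℝ) ^ 2 < 2 ^ (s * n) ∨ s = 2) →
      ∃ C : ℝ, ∀ K : ℕ, 1 ≤ K → {m : ℕ | |walk x m| ≤ (K : ℤ)}.Finite ∧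
        ({m : ℕ | |walk x m| ≤ (K : ℤ)}.ncard : ℝ) ≤ C * (K : ℝ) ^ s := by
  obtain ⟨y, hy⟩ := hT
  have hp : ((y.den : ℕ) : ℝ) * takagi x = y.num := by
    rw [hy]
    exact_mod_cast Rat.den_mul_eq_num y
  have hq : 0 < y.den := y.den_pos
  have hdiv := diverges_of hx hirr hq hp hL
  obtain ⟨C₀, hC₀⟩ := growth' hx hirr hq hp hdiv
  obtain ⟨x', N, τ, hE, h⟩ := exists_esc hx hirr hq hp hdiv
  refine ⟨part_entropy hE h n, fun s hs => ?_⟩
  rcases hs with hs | rfl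
  · obtain ⟨C, hC⟩ := part_growth hE h (fun K => (hC₀ K).1) hn hs
    exact ⟨C, fun K hK => ⟨(hC₀ K).1, hC K hK⟩⟩
  · refine ⟨4 * y.den + C₀, fun K hK => ⟨(hC₀ K).1, ?_⟩⟩
    have hKr : (1 : ℝ) ≤ K := by exact_mod_cast hK
    have h1 : 2 * ({m : ℕ | |walk x m| ≤ (K : ℤ)}.ncard : ℝ) ≤ y.den * ((K : ℝ) + 1) ^ 2 + C₀ := by
      exact_mod_cast (hC₀ K).2
    have h2 : ((K : ℝ) + 1) ^ 2 ≤ 4 * (K : ℝ) ^ 2 := by nlinarith
    have h3 : (y.den : ℝ) * ((K : ℝ) + 1) ^ 2 ≤ y.den * (4 * (K : ℝ) ^ 2) :=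
      mul_le_mul_of_nonneg_left h2 (by positivity)
    have h4 : (1 : ℝ) ≤ (K : ℝ) ^ 2 := one_le_pow₀ hKr
    have h5 : (C₀ : ℝ) * 1 ≤ C₀ * (K : ℝ) ^ 2 := mul_le_mul_of_nonneg_left h4 (by positivity)
    rw [Real.rpow_two]
    have h6 : (0 : ℝ) ≤ ({m : ℕ | |walk x m| ≤ (K : ℤ)}.ncard : ℝ) := by positivity
    calc ({m : ℕ | |walk x m| ≤ (K : ℤ)}.ncard : ℝ)
        ≤ 2 * ({m : ℕ | |walk x m| ≤ (K : ℤ)}.ncard : ℝ) := by linarith
      _ ≤ 4 * y.den * (K : ℝ) ^ 2 + C₀ * (K : ℝ) ^ 2 := by linarith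
      _ = (4 * y.den + C₀) * (K : ℝ) ^ 2 := by ring

end Pool.Agent.Results.MP_df9865_an.BlockEntropy
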