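import Pool.Agent.Work.MP_df9865_an.Entropy

open Set Filter Topology

namespace Pool.Agent.Results.MP_df9865_an.EntropyGrowth

open Pool.Agent.Work.MP_df9865_an

/-- Let `x` be irrational with `T(x)` rational and let the level set of `T(x)` be countable (or
only let the digit walk of `x` tend to infinity in absolute value). Then, for every `k` and up to
`ε`, the entropy of the empirical distribution of the blocks of length `k` times the growth exponent
of the walk is at least `k log 2 / 2`. -/
theorem result (x : ℝ) (hx : x ∈ Set.Icc (0 : ℝ) 1) (hirr : Irrational x)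
    (hT : ∃ y : ℚ, takagi x = y)
    (hL : (levelSet (takagi x)).Countable ∨ Tendsto (fun n => |walk x n|) atTop atTop)
    (k : ℕ) (hk : 0 < k) (ε : ℝ) (hε : 0 < ε) :
    ∀ᶠ M : ℕ in atTop,
      (k * Real.log 2 / 2 - ε) * Real.log M ≤ blockH x k M * Real.log (walkMax x M) := by
  obtain ⟨y, hy⟩ := hT
  have hp : ((y.den : ℕ) : ℝ) * takagi x = y.num := by
    rw [hy]
    exact_mod_cast Rat.den_mul_eq_num y
  have hq : 0 < y.den := y.den_pos
  have hdiv := diverges_of hx hirr hq hp hL
  obtain ⟨x', N, τ, hE, h⟩ := exists_esc hx hirr hq hp hdiv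
  exact part_entropy_growth hE h hk hε

end Pool.Agent.Results.MP_df9865_an.EntropyGrowth
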