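import Pool.Agent.Work.MP_df9865_an.Equiv

open Set Filter Topology

namespace Pool.Agent.Results.MP_df9865_an.InfiniteLevelSet

open Pool.Agent.Work.MP_df9865_an

/-- A rational height whose level set is infinite has a rational preimage. -/
theorem result (y : ℚ) (h : (levelSet (y : ℝ)).Infinite) : ∃ r : ℚ, (r : ℝ) ∈ levelSet (y : ℝ) := by
  apply rational_of_infinite y.den_pos (p := y.num) _ h
  have h1 : ((y.den : ℚ) * y) = y.num := by
    rw [mul_comm]
    exact Rat.mul_den_eq_num y
  exact_mod_cast h1

end Pool.Agent.Results.MP_df9865_an.InfiniteLevelSet
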