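import Pool.Agent.Work.MP_df9865_an.Equiv

open Set Filter Topology

namespace Pool.Agent.Results.MP_df9865_an.KnuthEquivalence

open Pool.Agent.Work.MP_df9865_an

/-- The two statements of Knuth about the Takagi function (every rational height in `[0, 2/3]` has a
rational preimage; every irrational point with rational height has an uncountable level set) are
equivalent to each other, to the weak form of the second one in which the level set is only required
to differ from `{x, 1 - x}`, and to the statement that every irrational point of `[0,1]` whose digit
walk tends to infinity in absolute value has irrational height. -/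
theorem result :
    List.TFAE [
      (∀ y : ℚ, 0 ≤ y → y ≤ 2 / 3 → ∃ r : ℚ, (r : ℝ) ∈ levelSet (y : ℝ)),
      (∀ x ∈ Set.Icc (0 : ℝ) 1, Irrational x → (∃ y : ℚ, takagi x = y) →
        ¬ (levelSet (takagi x)).Countable),
      (∀ x ∈ Set.Icc (0 : ℝ) 1, Irrational x → (∃ y : ℚ, takagi x = y) →
        levelSet (takagi x) ≠ {x, 1 - x}),
      (∀ x ∈ Set.Icc (0 : ℝ) 1, Irrational x → Tendsto (fun n => |walk x n|) atTop atTop →
        Irrational (takagi x))] := by
  tfae_have 4 → 2 := escape_imp_two
  tfae_have 2 → 1 := two_imp_one
  tfae_have 1 → 4 := one_imp_escape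
  tfae_have 2 → 3 := two_imp_weak
  tfae_have 3 → 4 := weak_imp_escape
  tfae_finish

end Pool.Agent.Results.MP_df9865_an.KnuthEquivalence
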